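import Pool.Agent.P.MP_68beba_co.BestC

namespace Pool.Agent.Results.MP_68beba_co.BestEllipsoid

open Pool.Agent.P.MP_68beba_co

/-- The best inflation factor over all ellipsoids inside the metric polytope is
`cos(π/12) n + O(1)`, with or without a common centre. -/
theorem result (n : ℕ) (hn : 3 ≤ n) :
    (∀ (A : Matrix (Pr n) (Pr n) ℝ) (c v : Pr n → ℝ) (t : ℝ), A.det ≠ 0 → 0 < t →
      ell A c ⊆ MP n → MP n ⊆ ell (t • A) v → (√6 + √2) / 4 * n - 3 ≤ t) ∧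
    ∃ (A : Matrix (Pr n) (Pr n) ℝ) (c : Pr n → ℝ) (t : ℝ), A.det ≠ 0 ∧ 0 < t ∧
      ell A c ⊆ MP n ∧ MP n ⊆ ell (t • A) c ∧ t ≤ (√6 + √2) / 4 * n + 3 :=
  ⟨fun _ _ _ _ hA ht h1 h2 => Best.lower hn hA ht h1 h2, Best.upper hn⟩

end Pool.Agent.Results.MP_68beba_co.BestEllipsoid
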