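import Pool.Agent.P.MP_68beba_co.Main

namespace Pool.Agent.Results.MP_68beba_co.Exact

open Pool.Agent.P.MP_68beba_co

theorem result : ∃ δ r : ℕ → ℝ,
    (∀ n : ℕ, 3 ≤ n →
      {x ∈ Set.Ioo (0 : ℝ) 1 | cub n x = 0} = {δ n} ∧
      r n = √((n.choose 2 : ℝ) * (δ n / (1 - δ n)) +
        ((n ^ 2 / 4 : ℕ) : ℝ) * (2 / δ n - 1 / (1 - δ n))) ∧
      (∃ A c, IsJohn (MP n) A c) ∧
      ∀ A c, IsJohn (MP n) A c →
        IsLeast {t : ℝ | 0 < t ∧ MP n ⊆ AffineMap.homothety c t '' ell A c} (r n)) ∧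
    Filter.Tendsto (fun n : ℕ => r n / n) Filter.atTop
      (nhds ((3 : ℝ) ^ (3 / 4 : ℝ) * √(5 + √3) / 6)) := by
  have h : ∀ n : ℕ, ∃ δ : ℝ, 3 ≤ n → δ ∈ Set.Ioo (1 / 2 : ℝ) (2 / 3) ∧ cub n δ = 0 := by
    intro n
    by_cases hn : 3 ≤ n
    · obtain ⟨δ, h⟩ := exists_root (x := n) (by exact_mod_cast hn)
      exact ⟨δ, fun _ => h⟩
    · exact ⟨0, fun h => absurd h hn⟩
  choose δ hδ using h
  refine ⟨δ, fun n => √(rsq n (δ n)), fun n hn => ?_, tendsto_r δ hδ⟩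
  obtain ⟨⟨h1, h2⟩, h3⟩ := hδ n hn
  have h4 : δ n ∈ Set.Ioo (0 : ℝ) 1 := ⟨by linarith, by linarith⟩
  refine ⟨?_, rfl, infl hn h1.le h2.le h3⟩
  ext x
  exact ⟨fun hx => root_unique (by exact_mod_cast hn) hx.1 h4 hx.2 h3, by
    rintro rfl; exact ⟨h4, h3⟩⟩

end Pool.Agent.Results.MP_68beba_co.Exact
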